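import Pool.Agent.Helper72.SS.Core

/-!
# Project SS: `G_K22` and `G_K21`
-/

set_option autoImplicit false

namespace Pool.Agent.Helper72.SS

open MeasureTheory Filter Topology Pool.Agent.Helper57.SS

/-- `G_K22` -/
theorem gK22 : G_K22 := by
  intro hKM hREV hAPX hSEP hFZ hZP α A m0 μ _ T hE hT a b hW ha hb f g hf hg hf0 hg0
  refine av_lim T T a b f g hf hg _ (hSEP a b hW ha hb) ?_
  intro ε hε
  obtain ⟨p1, f', hm1, hb1, hc1, hi1⟩ := hAPX hFZ hZP α A μ T hE f hf (ε / 8) (by positivity)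
  obtain ⟨p2, g', hm2, hb2, hc2, hi2⟩ := hAPX hFZ hZP α A μ T hE g hg (ε / 8) (by positivity)
  obtain ⟨f1, f2, -, f4, -, -⟩ := hFZ hZP α A T hE
  have hf' : Bd f' := ⟨hm1.mono (f2 _) le_rfl, hb1⟩
  have hg' : Bd g' := ⟨hm2.mono (f2 _) le_rfl, hb2⟩
  obtain ⟨D1, hD1⟩ := hKM hREV hFZ hZP α A μ T hE f' hf' (hc1.trans hf0) (ε / 2) (by positivity)
  obtain ⟨D2, hD2⟩ := hKM hREV hFZ hZP α A μ T hE g' hg' (hc2.trans hg0) (ε / 2) (by positivity)
  refine ⟨max D1 D2 + max p1 p2, fun k l hkl => ?_⟩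
  set D0 := max D1 D2 with hD0
  set p := max p1 p2 with hp
  simp only [not_or, not_le] at hkl
  obtain ⟨-, h1, h2, h3, h4, h5, h6⟩ := hkl
  set e : Fin 4 → ℕ := ![a k, b k, a l, b l] with he
  set u : Fin 4 → α → ℝ := ![f, g, f, g] with hu
  set v : Fin 4 → α → ℝ := ![f', g', f', g'] with hv
  set Dj : Fin 4 → ℕ := ![D1, D2, D1, D2] with hDj
  have hub : ∀ i, Bd (u i) := by
    intro i
    fin_cases i
    · exact hf
    · exact hg
    · exact hf
    · exact hg
  have hvb : ∀ i, Bd (v i) := by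
    intro i
    fin_cases i
    · exact hf'
    · exact hg'
    · exact hf'
    · exact hg'
  have hvm : ∀ i, Measurable[Fz A T (-(p : ℤ))] (v i) := by
    have q1 : Measurable[Fz A T (-(p : ℤ))] f' :=
      hm1.mono (f1 _ _ (by have := le_max_left p1 p2; omega)) le_rfl
    have q2 : Measurable[Fz A T (-(p : ℤ))] g' :=
      hm2.mono (f1 _ _ (by have := le_max_right p1 p2; omega)) le_rfl
    intro i
    fin_cases i
    · exact q1
    · exact q2
    · exact q1
    · exact q2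
  have hvK : ∀ i, KMp A μ T (v i) (Dj i) (ε / 2) := by
    intro i
    fin_cases i
    · exact hD1
    · exact hD2
    · exact hD1
    · exact hD2
  have hDle : ∀ i, Dj i ≤ D0 := by
    intro i
    fin_cases i
    · exact le_max_left _ _
    · exact le_max_right _ _
    · exact le_max_left _ _
    · exact le_max_right _ _
  have huv : ∀ i, ∫ x, |u i x - v i x| ∂μ ≤ ε / 8 := by
    intro i
    fin_cases i
    · exact hi1
    · exact hi2
    · exact hi1
    · exact hi2
  have hsep : ∀ i j : Fin 4, i ≠ j → (((D0 + p : ℕ)) : ℤ) < |(e i : ℤ) - e j| := by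
    intro i j hij
    fin_cases i <;> fin_cases j
    · exact absurd rfl hij
    · exact h3
    · exact h1
    · exact h5
    · rw [abs_sub_comm]; exact h3
    · exact absurd rfl hij
    · rw [abs_sub_comm]; exact h6
    · exact h2
    · rw [abs_sub_comm]; exact h1
    · exact h6
    · exact absurd rfl hij
    · exact h4
    · rw [abs_sub_comm]; exact h5
    · rw [abs_sub_comm]; exact h2
    · rw [abs_sub_comm]; exact h4
    · exact absurd rfl hij
  have hap := approx hT e u v hub hvb (ε / 8) huv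
  obtain ⟨j0, -, hj0⟩ := Finset.exists_min_image (Finset.univ : Finset (Fin 4)) e
    Finset.univ_nonempty
  have hos := one_small hFZ hZP hE hT (hvb j0) (hvK j0) (e j0) (Finset.univ.erase j0) v e
    (fun j _ => (hvb j).2) (by
      intro j hj
      have hjne : j ≠ j0 := Finset.ne_of_mem_erase hj
      have hs := hsep j j0 hjne
      have hle := hj0 j (Finset.mem_univ _)
      rw [abs_of_nonneg (by omega)] at hs
      refine (f4 _ ((e j : ℤ) - e j0) (v j) (hvm j)).mono (f1 _ _ ?_) le_rfl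
      have := hDle j0
      push_cast at hs ⊢
      omega)
  have hprod : ∀ x, v j0 ((⇑T)^[e j0] x) * ∏ j ∈ Finset.univ.erase j0, v j ((⇑T)^[e j] x) =
      ∏ j, v j ((⇑T)^[e j] x) := fun x =>
    Finset.mul_prod_erase Finset.univ (fun j => v j ((⇑T)^[e j] x)) (Finset.mem_univ j0)
  simp only [hprod] at hos
  have hfour : ∀ x, ∏ j, u j ((⇑T)^[e j] x) =
      (f ((⇑T)^[a k] x) * g ((⇑T)^[b k] x)) * (f ((⇑T)^[a l] x) * g ((⇑T)^[b l] x)) := by
    intro x
    rw [Fin.prod_univ_four]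
    simp only [hu, he, Matrix.cons_val_zero, Matrix.cons_val_one, Matrix.cons_val]
    ring
  simp only [hfour] at hap
  have h7 := abs_sub_abs_le_abs_sub (∫ x, (f ((⇑T)^[a k] x) * g ((⇑T)^[b k] x)) *
    (f ((⇑T)^[a l] x) * g ((⇑T)^[b l] x)) ∂μ) (∫ x, ∏ i, v i ((⇑T)^[e i] x) ∂μ)
  push_cast at hap
  linarith

/-- `G_K21` -/
theorem gK21 : G_K21 := by
  intro hKM hREV hAPX hSEP hFZ hZP α A m0 μ _ T hE hT a b hW ha hb f g hf hg hf0 hgm
  refine av_lim T T a b f g hf hg _ (hSEP a b hW ha hb) ?_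
  intro ε hε
  obtain ⟨p, f', hm1, hb1, hc1, hi1⟩ := hAPX hFZ hZP α A μ T hE f hf (ε / 8) (by positivity)
  obtain ⟨f1, f2, -, f4, f5, f6⟩ := hFZ hZP α A T hE
  have hf' : Bd f' := ⟨hm1.mono (f2 _) le_rfl, hb1⟩
  obtain ⟨D1, hD1⟩ := hKM hREV hFZ hZP α A μ T hE f' hf' (hc1.trans hf0) (ε / 2) (by positivity)
  refine ⟨D1 + p, fun k l hkl => ?_⟩
  simp only [not_or, not_le] at hkl
  obtain ⟨-, h1, -, -, -, -, -⟩ := hkl
  set e : Fin 4 → ℕ := ![a k, b k, a l, b l] with he
  set u : Fin 4 → α → ℝ := ![f, g, f, g] with hu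
  set v : Fin 4 → α → ℝ := ![f', g, f', g] with hv
  have hub : ∀ i, Bd (u i) := by
    intro i
    fin_cases i
    · exact hf
    · exact hg
    · exact hf
    · exact hg
  have hvb : ∀ i, Bd (v i) := by
    intro i
    fin_cases i
    · exact hf'
    · exact hg
    · exact hf'
    · exact hg
  have huv : ∀ i, ∫ x, |u i x - v i x| ∂μ ≤ ε / 8 := by
    have hgg : ∫ x, |g x - g x| ∂μ ≤ ε / 8 := by
      simp only [sub_self, abs_zero, integral_zero]
      positivity
    intro i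
    fin_cases i
    · exact hi1
    · exact hgg
    · exact hi1
    · exact hgg
  have hap := approx hT e u v hub hvb (ε / 8) huv
  have hgz : ∀ m : ℤ, Measurable[Fz A T D1] fun x => g (zp T m x) := fun m =>
    (f5 m g hgm).mono (f6 _) le_rfl
  have hfz : ∀ i j : ℕ, i ≤ j → (((D1 + p : ℕ)) : ℤ) < |(i : ℤ) - j| →
      Measurable[Fz A T D1] fun x => f' (zp T ((j : ℤ) - i) x) := by
    intro i j hij hs
    rw [abs_sub_comm, abs_of_nonneg (by omega)] at hs
    refine (f4 _ ((j : ℤ) - i) f' hm1).mono (f1 _ _ ?_) le_rfl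
    push_cast at hs ⊢
    omega
  have hkey : ∃ j0 : Fin 4, KMp A μ T (v j0) D1 (ε / 2) ∧ ∀ j ∈ Finset.univ.erase j0,
      Measurable[Fz A T D1] fun x => v j (zp T ((e j : ℤ) - e j0) x) := by
    rcases le_total (a k) (a l) with h | h
    · refine ⟨0, hD1, fun j hj => ?_⟩
      have hjne : j ≠ 0 := Finset.ne_of_mem_erase hj
      fin_cases j
      · exact absurd rfl hjne
      · exact hgz _
      · exact hfz (a k) (a l) h h1
      · exact hgz _
    · refine ⟨2, hD1, fun j hj => ?_⟩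
      have hjne : j ≠ 2 := Finset.ne_of_mem_erase hj
      fin_cases j
      · exact hfz (a l) (a k) h (by rw [abs_sub_comm]; exact h1)
      · exact hgz _
      · exact absurd rfl hjne
      · exact hgz _
  obtain ⟨j0, hK0, hm0⟩ := hkey
  have hos := one_small hFZ hZP hE hT (hvb j0) hK0 (e j0) (Finset.univ.erase j0) v e
    (fun j _ => (hvb j).2) hm0
  have hprod : ∀ x, v j0 ((⇑T)^[e j0] x) * ∏ j ∈ Finset.univ.erase j0, v j ((⇑T)^[e j] x) =
      ∏ j, v j ((⇑T)^[e j] x) := fun x =>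
    Finset.mul_prod_erase Finset.univ (fun j => v j ((⇑T)^[e j] x)) (Finset.mem_univ j0)
  simp only [hprod] at hos
  have hfour : ∀ x, ∏ j, u j ((⇑T)^[e j] x) =
      (f ((⇑T)^[a k] x) * g ((⇑T)^[b k] x)) * (f ((⇑T)^[a l] x) * g ((⇑T)^[b l] x)) := by
    intro x
    rw [Fin.prod_univ_four]
    simp only [hu, he, Matrix.cons_val_zero, Matrix.cons_val_one, Matrix.cons_val]
    ring
  simp only [hfour] at hap
  have h7 := abs_sub_abs_le_abs_sub (∫ x, (f ((⇑T)^[a k] x) * g ((⇑T)^[b k] x)) *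
    (f ((⇑T)^[a l] x) * g ((⇑T)^[b l] x)) ∂μ) (∫ x, ∏ i, v i ((⇑T)^[e i] x) ∂μ)
  push_cast at hap
  linarith

end Pool.Agent.Helper72.SS

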