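import Pool.Agent.Helper57.SS.Goals

/-!
# Project SS: pair sums for the tail σ-algebra (common part of `G_K22`, `G_K21`)
-/

set_option autoImplicit false

namespace Pool.Agent.Helper72.SS

open MeasureTheory Filter Topology Pool.Agent.Helper57.SS

/-- invariance of the integral under iterates -/
lemma integral_iter {α : Type} [MeasurableSpace α] {μ : Measure α} {T : α → α}
    (hT : MeasurePreserving T μ μ) (i : ℕ) {G : α → ℝ} (hG : Measurable G) :
    ∫ x, G (T^[i] x) ∂μ = ∫ x, G x ∂μ := by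
  have h := hT.iterate i
  have h2 : ∫ y, G y ∂(Measure.map (T^[i]) μ) = ∫ x, G (T^[i] x) ∂μ :=
    integral_map h.measurable.aemeasurable hG.aestronglyMeasurable
  rw [← h2, h.map_eq]

/-- a bounded measurable function is integrable -/
lemma integrable_bd {α : Type} [MeasurableSpace α] {μ : Measure α} [IsProbabilityMeasure μ]
    {G : α → ℝ} (hG : Measurable G) (h1 : ∀ x, |G x| ≤ 1) : Integrable G μ :=
  Integrable.of_bound hG.aestronglyMeasurable 1 (Eventually.of_forall fun x => by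
    rw [Real.norm_eq_abs]; exact h1 x)

lemma abs_mul_le {x y : ℝ} (hx : |x| ≤ 1) (hy : |y| ≤ 1) : |x * y| ≤ 1 := by
  rw [abs_mul]
  exact mul_le_one₀ hx (abs_nonneg _) hy

/-- averages over pairs -/
theorem av_lim {α : Type} [MeasurableSpace α] {μ : Measure α} [IsProbabilityMeasure μ]
    (T S : α ≃ᵐ α) (a b : ℕ → ℕ) (f g : α → ℝ) (hf : Bd f) (hg : Bd g)
    (P : ℕ → ℕ × ℕ → Prop) [∀ D, DecidablePred (P D)]
    (hsep : ∀ D : ℕ, Tendsto (fun N : ℕ => ((N : ℝ) ^ 2)⁻¹ *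
      (((Finset.range N ×ˢ Finset.range N).filter (P D)).card : ℝ)) atTop (𝓝 0))
    (hpair : ∀ ε : ℝ, 0 < ε → ∃ D : ℕ, ∀ k l : ℕ, ¬ P D (k, l) →
      |∫ x, (f ((⇑T)^[a k] x) * g ((⇑S)^[b k] x)) * (f ((⇑T)^[a l] x) * g ((⇑S)^[b l] x)) ∂μ| ≤ ε) :
    Tendsto (fun N => ∫ x, (Av T S a b f g N x) ^ 2 ∂μ) atTop (𝓝 0) := by
  set F : ℕ → α → ℝ := fun k x => f ((⇑T)^[a k] x) * g ((⇑S)^[b k] x) with hF
  have hFm : ∀ k, Measurable (F k) := fun k =>
    (hf.1.comp (T.measurable.iterate (a k))).mul (hg.1.comp (S.measurable.iterate (b k)))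
  have hF1 : ∀ k x, |F k x| ≤ 1 := fun k x => abs_mul_le (hf.2 _) (hg.2 _)
  have hFF : ∀ k l, Integrable (fun x => F k x * F l x) μ := fun k l =>
    integrable_bd ((hFm k).mul (hFm l)) fun x => abs_mul_le (hF1 k x) (hF1 l x)
  have hI1 : ∀ k l, |∫ x, F k x * F l x ∂μ| ≤ 1 := by
    intro k l
    have h := norm_integral_le_of_norm_le_const (μ := μ) (f := fun x => F k x * F l x) (C := 1)
      (Eventually.of_forall fun x => by
        rw [Real.norm_eq_abs]; exact abs_mul_le (hF1 k x) (hF1 l x))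
    simpa [Real.norm_eq_abs] using h
  have hsq : ∀ N : ℕ, ∫ x, (Av T S a b f g N x) ^ 2 ∂μ =
      ((N : ℝ) ^ 2)⁻¹ * ∑ q ∈ Finset.range N ×ˢ Finset.range N, ∫ x, F q.1 x * F q.2 x ∂μ := by
    intro N
    have h1 : ∀ x, (Av T S a b f g N x) ^ 2 =
        ((N : ℝ) ^ 2)⁻¹ * ∑ q ∈ Finset.range N ×ˢ Finset.range N, F q.1 x * F q.2 x := by
      intro x
      unfold Av
      rw [mul_pow, inv_pow, sq (∑ k ∈ Finset.range N, f ((⇑T)^[a k] x) * g ((⇑S)^[b k] x)),
        Finset.sum_mul_sum, Finset.sum_product]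
    simp_rw [h1]
    rw [integral_const_mul, integral_finsetSum _ fun q _ => hFF q.1 q.2]
  rw [Metric.tendsto_atTop]
  intro ε hε
  obtain ⟨D, hD⟩ := hpair (ε / 2) (by positivity)
  obtain ⟨N0, hN0⟩ := (Metric.tendsto_atTop.1 (hsep D)) (ε / 2) (by positivity)
  refine ⟨max N0 1, fun N hN => ?_⟩
  have hN1 : 1 ≤ N := le_trans (le_max_right _ _) hN
  have hNpos : (0 : ℝ) < N := by exact_mod_cast hN1
  have h0 := hN0 N (le_trans (le_max_left _ _) hN)
  rw [Real.dist_eq, sub_zero] at h0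
  rw [Real.dist_eq, sub_zero, hsq N, abs_mul, abs_of_nonneg (by positivity : (0:ℝ) ≤ ((N : ℝ) ^ 2)⁻¹)]
  have hb : |∑ q ∈ Finset.range N ×ˢ Finset.range N, ∫ x, F q.1 x * F q.2 x ∂μ| ≤
      ε / 2 * (N : ℝ) ^ 2 + (((Finset.range N ×ˢ Finset.range N).filter (P D)).card : ℝ) := by
    refine le_trans (Finset.abs_sum_le_sum_abs _ _) ?_
    have h2 : ∀ q ∈ Finset.range N ×ˢ Finset.range N, |∫ x, F q.1 x * F q.2 x ∂μ| ≤
        ε / 2 + (if P D q then (1 : ℝ) else 0) := by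
      intro q _
      by_cases hq : P D q
      · rw [if_pos hq]
        have := hI1 q.1 q.2
        linarith
      · rw [if_neg hq]
        have := hD q.1 q.2 hq
        rw [add_zero]
        exact this
    refine le_trans (Finset.sum_le_sum h2) ?_
    rw [Finset.sum_add_distrib, Finset.sum_const, Finset.card_product, Finset.card_range,
      nsmul_eq_mul, Finset.sum_ite, Finset.sum_const_zero, add_zero, Finset.sum_const, nsmul_eq_mul,
      mul_one]
    push_cast
    apply le_of_eq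
    ring
  have h3 : ((N : ℝ) ^ 2)⁻¹ * |∑ q ∈ Finset.range N ×ˢ Finset.range N, ∫ x, F q.1 x * F q.2 x ∂μ| ≤
      ε / 2 + ((N : ℝ) ^ 2)⁻¹ * (((Finset.range N ×ˢ Finset.range N).filter (P D)).card : ℝ) := by
    refine le_trans (mul_le_mul_of_nonneg_left hb (by positivity)) ?_
    rw [mul_add]
    have : ((N : ℝ) ^ 2)⁻¹ * (ε / 2 * (N : ℝ) ^ 2) = ε / 2 := by
      field_simp
    rw [this]
  have h4 := le_abs_self (((N : ℝ) ^ 2)⁻¹ *
    (((Finset.range N ×ˢ Finset.range N).filter (P D)).card : ℝ))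
  linarith

/-- The product of two functions: the change when the factors are changed. -/
lemma prod_change {n : ℕ} (x y : Fin n → ℝ) (hx : ∀ i, |x i| ≤ 1) (hy : ∀ i, |y i| ≤ 1) :
    |∏ i, x i - ∏ i, y i| ≤ ∑ i, |x i - y i| := by
  induction n with
  | zero => simp
  | succ n ih =>
    rw [Fin.prod_univ_succ, Fin.prod_univ_succ, Fin.sum_univ_succ]
    have h1 := ih (fun i => x i.succ) (fun i => y i.succ) (fun i => hx _) fun i => hy _
    have h2 : |∏ i : Fin n, x i.succ| ≤ 1 := by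
      rw [Finset.abs_prod]
      exact Finset.prod_le_one (fun i _ => abs_nonneg _) fun i _ => hx _
    have h3 : x 0 * ∏ i : Fin n, x i.succ - y 0 * ∏ i : Fin n, y i.succ =
        (x 0 - y 0) * ∏ i : Fin n, x i.succ + y 0 * (∏ i : Fin n, x i.succ - ∏ i : Fin n, y i.succ) := by
      ring
    rw [h3]
    refine le_trans (abs_add_le _ _) ?_
    rw [abs_mul, abs_mul]
    have h4 : |x 0 - y 0| * |∏ i : Fin n, x i.succ| ≤ |x 0 - y 0| * 1 :=
      mul_le_mul_of_nonneg_left h2 (abs_nonneg _)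
    have h5 : |y 0| * |∏ i : Fin n, x i.succ - ∏ i : Fin n, y i.succ| ≤
        1 * ∑ i : Fin n, |x i.succ - y i.succ| :=
      mul_le_mul (hy 0) h1 (abs_nonneg _) (by norm_num)
    linarith

/-- Replacing the functions by approximations. -/
theorem approx {α : Type} [MeasurableSpace α] {μ : Measure α} [IsProbabilityMeasure μ]
    {T : α → α} (hT : MeasurePreserving T μ μ) {n : ℕ} (e : Fin n → ℕ) (u v : Fin n → α → ℝ)
    (hu : ∀ i, Bd (u i)) (hv : ∀ i, Bd (v i)) (ε : ℝ) (hε : ∀ i, ∫ x, |u i x - v i x| ∂μ ≤ ε) :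
    |∫ x, ∏ i, u i (T^[e i] x) ∂μ - ∫ x, ∏ i, v i (T^[e i] x) ∂μ| ≤ n * ε := by
  have hbd : ∀ w : Fin n → α → ℝ, (∀ i, Bd (w i)) → Integrable (fun x => ∏ i, w i (T^[e i] x)) μ := by
    intro w hw
    refine integrable_bd ?_ ?_
    · exact Finset.measurable_prod _ fun i _ => (hw i).1.comp (hT.measurable.iterate (e i))
    · intro x
      rw [Finset.abs_prod]
      exact Finset.prod_le_one (fun i _ => abs_nonneg _) fun i _ => (hw i).2 _
  have hd : ∀ i, Integrable (fun x => |u i x - v i x|) μ := fun i =>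
    ((integrable_bd (hu i).1 (hu i).2).sub (integrable_bd (hv i).1 (hv i).2)).abs
  have hd2 : ∀ i, Integrable (fun x => |u i (T^[e i] x) - v i (T^[e i] x)|) μ := fun i =>
    ((integrable_bd ((hu i).1.comp (hT.measurable.iterate (e i))) fun x => (hu i).2 _).sub
      (integrable_bd ((hv i).1.comp (hT.measurable.iterate (e i))) fun x => (hv i).2 _)).abs
  rw [← integral_sub (hbd u hu) (hbd v hv)]
  refine le_trans abs_integral_le_integral_abs ?_
  have h1 : ∫ x, |∏ i, u i (T^[e i] x) - ∏ i, v i (T^[e i] x)| ∂μ ≤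
      ∫ x, ∑ i, |u i (T^[e i] x) - v i (T^[e i] x)| ∂μ := by
    refine integral_mono ((hbd u hu).sub (hbd v hv)).abs (integrable_finsetSum _ fun i _ => hd2 i) ?_
    intro x
    exact prod_change _ _ (fun i => (hu i).2 _) fun i => (hv i).2 _
  refine le_trans h1 ?_
  rw [integral_finsetSum _ fun i _ => hd2 i]
  have h2 : ∀ i ∈ (Finset.univ : Finset (Fin n)), ∫ x, |u i (T^[e i] x) - v i (T^[e i] x)| ∂μ ≤ ε := by
    intro i _
    have h3 := integral_iter hT (e i) (G := fun x => |u i x - v i x|)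
      (((hu i).1.sub (hv i).1).abs)
    rw [h3]
    exact hε i
  refine le_trans (Finset.sum_le_sum h2) ?_
  rw [Finset.sum_const, Finset.card_univ, Fintype.card_fin, nsmul_eq_mul]

section
variable {α : Type} (A : MeasurableSpace α) [m0 : MeasurableSpace α] (μ : Measure α)
  [IsProbabilityMeasure μ] (T : α ≃ᵐ α)

/-- the conclusion of `G_KM` -/
def KMp (u : α → ℝ) (D : ℕ) (ε : ℝ) : Prop :=
  ∀ v : α → ℝ, Measurable[Fz A T D] v → (∀ x, |v x| ≤ 1) → |∫ x, u x * v x ∂μ| ≤ ε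

end

section
variable {α : Type} {A : MeasurableSpace α} [m0 : MeasurableSpace α] {μ : Measure α}
  [IsProbabilityMeasure μ] {T : α ≃ᵐ α}

/-- one factor at the smallest exponent, the others measurable for the future -/
theorem one_small (hFZ : G_FZ) (hZP : G_ZP) (hE : Exh A T) (hT : MeasurePreserving (⇑T) μ μ)
    {u : α → ℝ} (hu : Bd u) {D : ℕ} {ε : ℝ} (hK : KMp A μ T u D ε) (i : ℕ) {ι : Type} (s : Finset ι)
    (w : ι → α → ℝ) (n : ι → ℕ) (hw : ∀ j ∈ s, ∀ x, |w j x| ≤ 1)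
    (hm : ∀ j ∈ s, Measurable[Fz A T D] fun x => w j (zp T ((n j : ℤ) - i) x)) :
    |∫ x, u ((⇑T)^[i] x) * ∏ j ∈ s, w j ((⇑T)^[n j] x) ∂μ| ≤ ε := by
  obtain ⟨z0, z1, -, z3, z4, -, -⟩ := hZP α T
  obtain ⟨f1, f2, -, -, -, -⟩ := hFZ hZP α A T hE
  set V : α → ℝ := fun x => ∏ j ∈ s, w j (zp T ((n j : ℤ) - i) x) with hV
  have hVm : Measurable[Fz A T D] V := by
    rw [hV]
    exact @Finset.measurable_prod ℝ ι α _ _ _ (Fz A T D) (fun j x => w j (zp T ((n j : ℤ) - i) x)) s (fun j hj => hm j hj)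
  have hV1 : ∀ x, |V x| ≤ 1 := by
    intro x
    simp only [hV]
    rw [Finset.abs_prod]
    exact Finset.prod_le_one (fun i _ => abs_nonneg _) fun j hj => hw j hj _
  have hVm0 : Measurable V := hVm.mono (f2 D) le_rfl
  have h1 := hK V hVm hV1
  have h2 := integral_iter hT i (G := fun x => u x * V x) (hu.1.mul hVm0)
  have h3 : ∀ x, u ((⇑T)^[i] x) * V ((⇑T)^[i] x) = u ((⇑T)^[i] x) * ∏ j ∈ s, w j ((⇑T)^[n j] x) := by
    intro x
    simp only [hV]
    congr 1
    refine Finset.prod_congr rfl fun j _ => ?_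
    rw [← z1 i x, ← z3, sub_add_cancel, z1]
  simp only [h3] at h2
  rw [h2]
  exact h1

end

end Pool.Agent.Helper72.SS
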